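import Mathlib

/-!
Discrete point X-rays do not determine convex lattice sets: neither at any three noncollinear
lattice points, nor at a certain set of seven lattice points.
-/

namespace Pool.Agent.Results.MP_259ac5_co.PointXRays

open Set

/-- A lattice point, as a point of the plane. -/
def toR (z : ℤ × ℤ) : ℝ × ℝ := ((z.1 : ℝ), (z.2 : ℝ))

/-- A convex lattice set: a finite set `F ⊆ ℤ²` with `F = conv(F) ∩ ℤ²`. -/
def IsConvexLatticeSet (F : Set (ℤ × ℤ)) : Prop :=
  F.Finite ∧ F = {z | toR z ∈ convexHull ℝ (toR '' F)}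

/-- The line through `x` with direction vector `d`. -/
def lineThrough (x d : ℝ × ℝ) : Set (ℝ × ℝ) := {y | ∃ t : ℝ, y = x + t • d}

/-- The discrete point X-ray of `E` at `p`: the number of points of `E` on the line through `p`
with direction vector `d`. -/
noncomputable def xray (E : Set (ℤ × ℤ)) (p : ℤ × ℤ) (d : ℝ × ℝ) : ℕ :=
  {z | z ∈ E ∧ toR z ∈ lineThrough (toR p) d}.ncard

/-- `F` belongs to the class `𝒞_P`: it is a convex lattice set disjoint from every line passing
through two distinct points of `P`. -/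
def InClass (P F : Set (ℤ × ℤ)) : Prop :=
  IsConvexLatticeSet F ∧
    ∀ p ∈ P, ∀ q ∈ P, p ≠ q → ∀ z ∈ F, toR z ∉ lineThrough (toR p) (toR q - toR p)

/-- Discrete point X-rays at `P` determine convex lattice sets. -/
def Determine (P : Set (ℤ × ℤ)) : Prop :=
  ∀ F₁ F₂ : Set (ℤ × ℤ), InClass P F₁ → InClass P F₂ →
    (∀ p ∈ P, ∀ d : ℝ × ℝ, d ≠ 0 → xray F₁ p d = xray F₂ p d) → F₁ = F₂

theorem mem_line_iff {x y d : ℝ × ℝ} (hd : d ≠ 0) :
    y ∈ lineThrough x d ↔ (y.1 - x.1) * d.2 = (y.2 - x.2) * d.1 := by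
  constructor
  · rintro ⟨t, rfl⟩
    simp only [Prod.fst_add, Prod.smul_fst, smul_eq_mul, Prod.snd_add, Prod.smul_snd]
    ring
  · intro h
    have hd' : d.1 ≠ 0 ∨ d.2 ≠ 0 := by
      by_contra hc
      push Not at hc
      exact hd (Prod.ext hc.1 hc.2)
    rcases hd' with h1 | h2
    · refine ⟨(y.1 - x.1) / d.1, Prod.ext ?_ ?_⟩
      · simp only [Prod.fst_add, Prod.smul_fst, smul_eq_mul]
        field_simp
        ring
      · simp only [Prod.snd_add, Prod.smul_snd, smul_eq_mul]
        rw [div_mul_eq_mul_div, h]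
        field_simp
        ring
    · refine ⟨(y.2 - x.2) / d.2, Prod.ext ?_ ?_⟩
      · simp only [Prod.fst_add, Prod.smul_fst, smul_eq_mul]
        rw [div_mul_eq_mul_div, ← h]
        field_simp
        ring
      · simp only [Prod.snd_add, Prod.smul_snd, smul_eq_mul]
        field_simp
        ring

theorem toR_injective : Function.Injective toR := by
  intro x y h
  have h1 := congrArg Prod.fst h
  have h2 := congrArg Prod.snd h
  simp only [toR, Int.cast_inj] at h1 h2
  exact Prod.ext h1 h2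

/-- The half-plane of points with `α x + β y < γ`, together with one boundary point, is convex. -/
theorem convex_half (α β : ℝ) (w : ℝ × ℝ) :
    Convex ℝ {x : ℝ × ℝ | α * x.1 + β * x.2 < α * w.1 + β * w.2 ∨ x = w} := by
  intro x hx y hy s t hs ht hst
  simp only [mem_ofPred_eq, Prod.fst_add, Prod.smul_fst, smul_eq_mul, Prod.snd_add,
    Prod.smul_snd] at hx hy ⊢
  rcases hs.eq_or_lt with h0 | hs'
  · have : t = 1 := by linarith
    subst h0
    subst this
    simpa using hy
  rcases ht.eq_or_lt with h0 | ht'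
  · have : s = 1 := by linarith
    subst h0
    subst this
    simpa using hx
  rcases hx with hx | hx
  · left
    have hy' : α * y.1 + β * y.2 ≤ α * w.1 + β * w.2 := by
      rcases hy with hy | hy
      · exact hy.le
      · rw [hy]
    have h1 := mul_lt_mul_of_pos_left hx hs'
    have h2 := mul_le_mul_of_nonneg_left hy' ht
    have : t = 1 - s := by linarith
    subst this
    nlinarith
  · rcases hy with hy | hy
    · left
      have h1 := mul_lt_mul_of_pos_left hy ht'
      have : s = 1 - t := by linarith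
      subst this
      subst hx
      nlinarith
    · right
      subst hx
      subst hy
      rw [← add_smul, hst, one_smul]

theorem convex_halfspace (α β γ : ℝ) :
    Convex ℝ {x : ℝ × ℝ | α * x.1 + β * x.2 < γ} := by
  intro x hx y hy s t hs ht hst
  simp only [mem_ofPred_eq, Prod.fst_add, Prod.smul_fst, smul_eq_mul, Prod.snd_add,
    Prod.smul_snd] at hx hy ⊢
  rcases hs.eq_or_lt with h0 | hs'
  · have : t = 1 := by linarith
    subst h0
    subst this
    simpa using hy
  · have h1 := mul_lt_mul_of_pos_left hx hs'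
    have h2 := mul_le_mul_of_nonneg_left hy.le ht
    have : t = 1 - s := by linarith
    subst this
    nlinarith

/-- The value of the linear form with coefficients `α`, `β` at a lattice point. -/
def form (α β : ℝ) (z : ℤ × ℤ) : ℝ := α * z.1 + β * z.2

/-- The cross product of `q - p` and `v - p`. -/
def cross (p q v : ℤ × ℤ) : ℤ := (q.1 - p.1) * (v.2 - p.2) - (q.2 - p.2) * (v.1 - p.1)

section Switch

variable {n : ℕ} (a b : Fin n → ℤ × ℤ)

/-- The hull of the two families of vertices. -/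
def hull : Set (ℝ × ℝ) := convexHull ℝ (toR '' (range a ∪ range b))

/-- The lattice points of the hull. -/
def body : Set (ℤ × ℤ) := {z | toR z ∈ hull a b}

theorem body_finite : (body a b).Finite := by
  classical
  have hfin : (range a ∪ range b).Finite := (finite_range a).union (finite_range b)
  obtain ⟨m, hm⟩ : ∃ m : ℤ, ∀ z ∈ range a ∪ range b, |z.1| ≤ m ∧ |z.2| ≤ m := by
    obtain ⟨m1, h1⟩ := (hfin.image fun z : ℤ × ℤ => |z.1|).bddAbove
    obtain ⟨m2, h2⟩ := (hfin.image fun z : ℤ × ℤ => |z.2|).bddAbove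
    refine ⟨max m1 m2, fun z hz => ⟨?_, ?_⟩⟩
    · exact le_max_of_le_left (h1 ⟨z, hz, rfl⟩)
    · exact le_max_of_le_right (h2 ⟨z, hz, rfl⟩)
  have hsub : hull a b ⊆ Icc ((-(m : ℝ)), (-(m : ℝ))) ((m : ℝ), (m : ℝ)) := by
    refine convexHull_min ?_ (convex_Icc _ _)
    rintro _ ⟨z, hz, rfl⟩
    obtain ⟨h1, h2⟩ := hm z hz
    rw [abs_le] at h1 h2
    refine ⟨⟨?_, ?_⟩, ⟨?_, ?_⟩⟩ <;> simp only [toR] <;> first | exact_mod_cast h1.1 | exact_mod_cast h1.2 | exact_mod_cast h2.1 | exact_mod_cast h2.2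
  refine (finite_Icc ((-m, -m) : ℤ × ℤ) (m, m)).subset ?_
  intro z hz
  have := hsub hz
  obtain ⟨⟨h1, h2⟩, ⟨h3, h4⟩⟩ := this
  simp only [toR] at h1 h2 h3 h4
  refine ⟨⟨?_, ?_⟩, ⟨?_, ?_⟩⟩
  · exact_mod_cast h1
  · exact_mod_cast h2
  · exact_mod_cast h3
  · exact_mod_cast h4

theorem body_convexLattice_sdiff {T : Set (ℤ × ℤ)} (hT : T ⊆ range a ∪ range b)
    (hext : ∀ w ∈ T, ∃ α β : ℝ, ∀ z ∈ range a ∪ range b, z ≠ w → form α β z < form α β w) :
    IsConvexLatticeSet (body a b \ T) := by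
  refine ⟨(body_finite a b).subset diff_subset, ?_⟩
  ext z
  constructor
  · intro hz
    exact subset_convexHull ℝ _ ⟨z, hz, rfl⟩
  · intro hz
    have hsub : toR '' (body a b \ T) ⊆ hull a b := by
      rintro _ ⟨w, hw, rfl⟩
      exact hw.1
    refine ⟨convexHull_min hsub (convex_convexHull ℝ _) hz, ?_⟩
    intro hzT
    obtain ⟨α, β, hαβ⟩ := hext z hzT
    have h1 : hull a b ⊆ {x : ℝ × ℝ | α * x.1 + β * x.2 < α * (toR z).1 + β * (toR z).2 ∨
        x = toR z} := by
      refine convexHull_min ?_ (convex_half α β (toR z))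
      rintro _ ⟨w, hw, rfl⟩
      by_cases hwz : w = z
      · right
        rw [hwz]
      · left
        exact hαβ w hw hwz
    have h2 : toR '' (body a b \ T) ⊆
        {x : ℝ × ℝ | α * x.1 + β * x.2 < α * (toR z).1 + β * (toR z).2} := by
      rintro _ ⟨w, hw, rfl⟩
      rcases h1 hw.1 with h | h
      · exact h
      · exact absurd hzT (by rw [← toR_injective h]; exact hw.2)
    have h3 := convexHull_min h2 (convex_halfspace _ _ _) hz
    simp only [mem_ofPred_eq, lt_self_iff_false] at h3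

theorem body_avoid {p q : ℤ × ℤ} (hpq : p ≠ q) (s : ℤ)
    (hs : ∀ v ∈ range a ∪ range b, 0 < s * cross p q v) :
    ∀ z ∈ body a b, toR z ∉ lineThrough (toR p) (toR q - toR p) := by
  intro z hz hline
  have hd : toR q - toR p ≠ 0 := by
    intro h
    exact hpq (toR_injective (sub_eq_zero.1 h)).symm
  rw [mem_line_iff hd] at hline
  have h1 : hull a b ⊆ {x : ℝ × ℝ |
      ((s : ℝ) * (q.2 - p.2)) * x.1 + (-(s : ℝ) * (q.1 - p.1)) * x.2 <
        (s : ℝ) * (q.2 - p.2) * p.1 - (s : ℝ) * (q.1 - p.1) * p.2} := by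
    refine convexHull_min ?_ (convex_halfspace _ _ _)
    rintro _ ⟨w, hw, rfl⟩
    have := hs w hw
    have h2 : (0 : ℝ) < (s : ℝ) * (((q.1 : ℝ) - p.1) * ((w.2 : ℝ) - p.2) -
        ((q.2 : ℝ) - p.2) * ((w.1 : ℝ) - p.1)) := by
      have h3 : ((0 : ℤ) : ℝ) < ((s * cross p q w : ℤ) : ℝ) := by exact_mod_cast this
      simpa [cross] using h3
    simp only [toR, mem_ofPred_eq]
    nlinarith
  have h2 := h1 hz
  simp only [toR, mem_ofPred_eq, Prod.fst_sub, Prod.snd_sub] at h2 hline
  have h5 : (s : ℝ) * (((z.1 : ℝ) - p.1) * ((q.2 : ℝ) - p.2)) =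
      (s : ℝ) * (((z.2 : ℝ) - p.2) * ((q.1 : ℝ) - p.1)) := by rw [hline]
  linarith

/-- The switching lemma. -/
theorem not_determine (P : Set (ℤ × ℤ)) (hn : 0 < n)
    (ha : ∀ i, ∃ α β : ℝ, (∀ j, j ≠ i → form α β (a j) < form α β (a i)) ∧
      ∀ j, form α β (b j) < form α β (a i))
    (hb : ∀ i, ∃ α β : ℝ, (∀ j, j ≠ i → form α β (b j) < form α β (b i)) ∧
      ∀ j, form α β (a j) < form α β (b i))
    (hline : ∀ p ∈ P, ∀ q ∈ P, p ≠ q →
      ∃ s : ℤ, (∀ j, 0 < s * cross p q (a j)) ∧ ∀ j, 0 < s * cross p q (b j))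
    (hmatch : ∀ p ∈ P, ∃ π : Fin n ≃ Fin n, ∀ i, a i ≠ p ∧ b i ≠ p ∧
      cross p (a i) (b (π i)) = 0) :
    ¬ Determine P := by
  classical
  have hinja : Function.Injective a := by
    intro i j hij
    by_contra hne
    obtain ⟨α, β, h, -⟩ := ha i
    have := h j (Ne.symm hne)
    rw [hij] at this
    exact lt_irrefl _ this
  have hinjb : Function.Injective b := by
    intro i j hij
    by_contra hne
    obtain ⟨α, β, h, -⟩ := hb i
    have := h j (Ne.symm hne)
    rw [hij] at this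
    exact lt_irrefl _ this
  have hab : ∀ i j, a i ≠ b j := by
    intro i j hij
    obtain ⟨α, β, -, h⟩ := ha i
    have := h j
    rw [hij] at this
    exact lt_irrefl _ this
  have hEa : ∀ w ∈ range a, ∃ α β : ℝ, ∀ z ∈ range a ∪ range b, z ≠ w →
      form α β z < form α β w := by
    rintro _ ⟨i, rfl⟩
    obtain ⟨α, β, h1, h2⟩ := ha i
    refine ⟨α, β, ?_⟩
    rintro z (⟨j, rfl⟩ | ⟨j, rfl⟩) hz
    · exact h1 j fun h => hz (by rw [h])
    · exact h2 j
  have hEb : ∀ w ∈ range b, ∃ α β : ℝ, ∀ z ∈ range a ∪ range b, z ≠ w →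
      form α β z < form α β w := by
    rintro _ ⟨i, rfl⟩
    obtain ⟨α, β, h1, h2⟩ := hb i
    refine ⟨α, β, ?_⟩
    rintro z (⟨j, rfl⟩ | ⟨j, rfl⟩) hz
    · exact h2 j
    · exact h1 j fun h => hz (by rw [h])
  have hc1 := body_convexLattice_sdiff a b (T := range b) subset_union_right hEb
  have hc2 := body_convexLattice_sdiff a b (T := range a) subset_union_left hEa
  have havoid : ∀ p ∈ P, ∀ q ∈ P, p ≠ q → ∀ z ∈ body a b,
      toR z ∉ lineThrough (toR p) (toR q - toR p) := by
    intro p hp q hq hpq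
    obtain ⟨s, h1, h2⟩ := hline p hp q hq hpq
    refine body_avoid a b hpq s ?_
    rintro v (⟨j, rfl⟩ | ⟨j, rfl⟩)
    · exact h1 j
    · exact h2 j
  have hmema : ∀ i, a i ∈ body a b := fun i =>
    subset_convexHull ℝ _ ⟨a i, Or.inl ⟨i, rfl⟩, rfl⟩
  have hmemb : ∀ i, b i ∈ body a b := fun i =>
    subset_convexHull ℝ _ ⟨b i, Or.inr ⟨i, rfl⟩, rfl⟩
  intro hdet
  have heq := hdet (body a b \ range b) (body a b \ range a)
    ⟨hc1, fun p hp q hq hpq z hz => havoid p hp q hq hpq z hz.1⟩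
    ⟨hc2, fun p hp q hq hpq z hz => havoid p hp q hq hpq z hz.1⟩ ?_
  · have h1 : a ⟨0, hn⟩ ∈ body a b \ range b := by
      refine ⟨hmema _, ?_⟩
      rintro ⟨j, hj⟩
      exact hab _ _ hj.symm
    rw [heq] at h1
    exact h1.2 ⟨_, rfl⟩
  · intro p hp d hd
    obtain ⟨π, hπ⟩ := hmatch p hp
    have hiff : ∀ i, toR (a i) ∈ lineThrough (toR p) d ↔
        toR (b (π i)) ∈ lineThrough (toR p) d := by
      intro i
      obtain ⟨h1, h2, h3⟩ := hπ i
      have h2' := (hπ (π i)).2.1
      rw [mem_line_iff hd, mem_line_iff hd]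
      have h3' : ((a i).1 - p.1 : ℝ) * ((b (π i)).2 - p.2) =
          ((a i).2 - p.2 : ℝ) * ((b (π i)).1 - p.1) := by
        have := h3
        simp only [cross] at this
        have h4 : (((((a i).1 - p.1) * ((b (π i)).2 - p.2) -
          ((a i).2 - p.2) * ((b (π i)).1 - p.1) : ℤ)) : ℝ) = ((0 : ℤ) : ℝ) := by rw [this]
        push_cast at h4
        linarith
      have ne1 : ((a i).1 - p.1 : ℝ) ≠ 0 ∨ ((a i).2 - p.2 : ℝ) ≠ 0 := by
        by_contra hc
        push Not at hc
        apply h1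
        refine Prod.ext ?_ ?_
        · have := sub_eq_zero.1 hc.1
          exact_mod_cast this
        · have := sub_eq_zero.1 hc.2
          exact_mod_cast this
      have ne2 : ((b (π i)).1 - p.1 : ℝ) ≠ 0 ∨ ((b (π i)).2 - p.2 : ℝ) ≠ 0 := by
        by_contra hc
        push Not at hc
        apply h2'
        refine Prod.ext ?_ ?_
        · have := sub_eq_zero.1 hc.1
          exact_mod_cast this
        · have := sub_eq_zero.1 hc.2
          exact_mod_cast this
      simp only [toR]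
      generalize ((a i).1 - p.1 : ℝ) = x at *
      generalize ((a i).2 - p.2 : ℝ) = y at *
      generalize ((b (π i)).1 - p.1 : ℝ) = z at *
      generalize ((b (π i)).2 - p.2 : ℝ) = w at *
      constructor
      · intro h
        rcases ne1 with hx | hy
        · apply mul_left_cancel₀ hx
          linear_combination z * h - d.1 * h3'
        · apply mul_left_cancel₀ hy
          linear_combination w * h - d.2 * h3'
      · intro h
        rcases ne2 with hz | hw
        · apply mul_left_cancel₀ hz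
          linear_combination x * h + d.1 * h3'
        · apply mul_left_cancel₀ hw
          linear_combination y * h + d.2 * h3'
    set C0 : Set (ℤ × ℤ) := {z | z ∈ body a b ∧ z ∉ range a ∧ z ∉ range b ∧
      toR z ∈ lineThrough (toR p) d} with hC0
    set I : Set (Fin n) := {i | toR (a i) ∈ lineThrough (toR p) d} with hI
    have hC0fin : C0.Finite := (body_finite a b).subset fun z hz => hz.1
    have e1 : {z | z ∈ body a b \ range b ∧ toR z ∈ lineThrough (toR p) d} = C0 ∪ a '' I := by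
      ext z
      constructor
      · rintro ⟨⟨h1, h2⟩, h3⟩
        by_cases hz : z ∈ range a
        · obtain ⟨i, rfl⟩ := hz
          exact Or.inr ⟨i, h3, rfl⟩
        · exact Or.inl ⟨h1, hz, h2, h3⟩
      · rintro (⟨h1, h2, h3, h4⟩ | ⟨i, hi, rfl⟩)
        · exact ⟨⟨h1, h3⟩, h4⟩
        · refine ⟨⟨hmema i, ?_⟩, hi⟩
          rintro ⟨j, hj⟩
          exact hab _ _ hj.symm
    have e2 : {z | z ∈ body a b \ range a ∧ toR z ∈ lineThrough (toR p) d} =
        C0 ∪ (fun i => b (π i)) '' I := by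
      ext z
      constructor
      · rintro ⟨⟨h1, h2⟩, h3⟩
        by_cases hz : z ∈ range b
        · obtain ⟨j, rfl⟩ := hz
          refine Or.inr ⟨π.symm j, ?_, by simp⟩
          rw [hI, mem_ofPred_eq, hiff]
          simpa using h3
        · exact Or.inl ⟨h1, h2, hz, h3⟩
      · rintro (⟨h1, h2, h3, h4⟩ | ⟨i, hi, rfl⟩)
        · exact ⟨⟨h1, h2⟩, h4⟩
        · refine ⟨⟨hmemb _, ?_⟩, (hiff i).1 hi⟩
          rintro ⟨j, hj⟩
          exact hab _ _ hj
    rw [xray, xray, e1, e2, ncard_union_eq ?_ hC0fin (I.toFinite.image _),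
      ncard_union_eq ?_ hC0fin (I.toFinite.image _), ncard_image_of_injective _ hinja,
      ncard_image_of_injective I
        (show Function.Injective (fun i => b (π i)) from hinjb.comp π.injective)]
    · rw [disjoint_left]
      rintro z ⟨_, _, h3, _⟩ ⟨i, _, rfl⟩
      exact h3 ⟨_, rfl⟩
    · rw [disjoint_left]
      rintro z ⟨_, h2, _, _⟩ ⟨i, _, rfl⟩
      exact h2 ⟨_, rfl⟩

end Switch

/-- Seven lattice points. -/
def pts : Fin 7 → ℤ × ℤ :=
  ![(0, 0), (-2898, -5166), (-1596, -756), (12180, 13356), (-2030, -2226), (1596, 756),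
    (-1932, -3444)]

/-- Every other vertex of a convex 14-gon. -/
def va : Fin 7 → ℤ × ℤ :=
  ![(2100, -756), (-819, -3549), (7623, -2079), (-315, -2520), (14532, -15876), (714, -1386),
    (-140, -5124)]

/-- The remaining vertices of the convex 14-gon. -/
def vb : Fin 7 → ℤ × ℤ :=
  ![(13650, -4914), (-60, -2196), (5236, -10164), (1038, -1134), (-560, -4480), (2772, -756),
    (-756, -3276)]

/-- Outer normals at the vertices `va`. -/
def ga : Fin 7 → ℤ × ℤ :=
  ![(-63, 289), (-43, -7), (99, 259), (-45, 29), (375, -601), (-59, 61), (-203, -207)]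

/-- Outer normals at the vertices `vb`. -/
def gb : Fin 7 → ℤ × ℤ :=
  ![(657, 329), (-54, 49), (-96, -131), (-5, 11), (-225, -97), (63, 263), (-49, 24)]

/-- Scalar product of lattice vectors. -/
def dot (g v : ℤ × ℤ) : ℤ := g.1 * v.1 + g.2 * v.2

/-- The reflection `i ↦ -i-k` of the indices. -/
def refl7 (k : Fin 7) : Fin 7 ≃ Fin 7 where
  toFun i := -i - k
  invFun i := -i - k
  left_inv i := by revert i k; decide
  right_inv i := by revert i k; decide

theorem check_a : ∀ i j : Fin 7, (j ≠ i → dot (ga i) (va j) < dot (ga i) (va i)) ∧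
    dot (ga i) (vb j) < dot (ga i) (va i) := by
  decide

theorem check_b : ∀ i j : Fin 7, (j ≠ i → dot (gb i) (vb j) < dot (gb i) (vb i)) ∧
    dot (gb i) (va j) < dot (gb i) (vb i) := by
  decide

theorem check_line : ∀ k l : Fin 7, k ≠ l →
    (∀ j, 0 < (if 0 < cross (pts k) (pts l) (va 0) then 1 else -1) *
      cross (pts k) (pts l) (va j)) ∧
    (∀ j, 0 < (if 0 < cross (pts k) (pts l) (va 0) then 1 else -1) *
      cross (pts k) (pts l) (vb j)) := by
  decide

theorem check_match : ∀ k i : Fin 7, va i ≠ pts k ∧ vb i ≠ pts k ∧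
    cross (pts k) (va i) (vb (refl7 k i)) = 0 := by
  decide

theorem pts_injective : Function.Injective pts := by
  decide

theorem form_intCast (g v : ℤ × ℤ) : form g.1 g.2 v = ((dot g v : ℤ) : ℝ) := by
  simp [form, dot]

theorem seven : ¬ Determine (range pts) := by
  refine not_determine va vb (range pts) (by norm_num) ?_ ?_ ?_ ?_
  · intro i
    refine ⟨(ga i).1, (ga i).2, fun j hj => ?_, fun j => ?_⟩
    · rw [form_intCast, form_intCast]
      exact_mod_cast (check_a i j).1 hj
    · rw [form_intCast, form_intCast]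
      exact_mod_cast (check_a i j).2
  · intro i
    refine ⟨(gb i).1, (gb i).2, fun j hj => ?_, fun j => ?_⟩
    · rw [form_intCast, form_intCast]
      exact_mod_cast (check_b i j).1 hj
    · rw [form_intCast, form_intCast]
      exact_mod_cast (check_b i j).2
  · rintro _ ⟨k, rfl⟩ _ ⟨l, rfl⟩ hkl
    have hne : k ≠ l := fun h => hkl (by rw [h])
    exact ⟨_, (check_line k l hne).1, (check_line k l hne).2⟩
  · rintro _ ⟨k, rfl⟩
    exact ⟨refl7 k, fun i => check_match k i⟩

/-- The image of `w` under the affine map that takes `(0,0)`, `(1,0)`, `(0,1)` to `p`, `q`,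
`r`. -/
def aff (p q r w : ℤ × ℤ) : ℤ × ℤ :=
  (p.1 + w.1 * (q.1 - p.1) + w.2 * (r.1 - p.1), p.2 + w.1 * (q.2 - p.2) + w.2 * (r.2 - p.2))

/-- Every other vertex of a convex hexagon. -/
def ta : Fin 3 → ℤ × ℤ := ![(12, 10), (120, 105), (9, 8)]

/-- The remaining vertices of the hexagon. -/
def tb : Fin 3 → ℤ × ℤ := ![(18, 15), (45, 40), (8, 7)]

/-- Outer normals at `ta`. -/
def na : Fin 3 → ℤ × ℤ := ![(4, -5), (25, -27), (-33, 37)]

/-- Outer normals at `tb`. -/
def nb : Fin 3 → ℤ × ℤ := ![(95, -108), (-97, 111), (2, -3)]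

theorem tcheck_a : ∀ i j : Fin 3, (j ≠ i → dot (na i) (ta j) < dot (na i) (ta i)) ∧
    dot (na i) (tb j) < dot (na i) (ta i) := by
  decide

theorem tcheck_b : ∀ i j : Fin 3, (j ≠ i → dot (nb i) (tb j) < dot (nb i) (tb i)) ∧
    dot (nb i) (ta j) < dot (nb i) (tb i) := by
  decide

theorem tpos : ∀ i : Fin 3, (0 < (ta i).1 ∧ 0 < (ta i).2 ∧ 1 < (ta i).1 + (ta i).2) ∧
    (0 < (tb i).1 ∧ 0 < (tb i).2 ∧ 1 < (tb i).1 + (tb i).2) := by
  decide

theorem form_aff {p q r : ℤ × ℤ} (hD : cross p q r ≠ 0) (g : ℤ × ℤ) :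
    ∃ α β κ : ℝ, ∀ w, form α β (aff p q r w) = ((dot g w : ℤ) : ℝ) + κ := by
  have hD' : ((cross p q r : ℤ) : ℝ) ≠ 0 := by exact_mod_cast hD
  refine ⟨(g.1 * (r.2 - p.2) - g.2 * (q.2 - p.2)) / (cross p q r : ℤ),
    (-g.1 * (r.1 - p.1) + g.2 * (q.1 - p.1)) / (cross p q r : ℤ),
    (g.1 * (r.2 - p.2) - g.2 * (q.2 - p.2)) / (cross p q r : ℤ) * p.1 +
    (-g.1 * (r.1 - p.1) + g.2 * (q.1 - p.1)) / (cross p q r : ℤ) * p.2, fun w => ?_⟩
  simp only [form, aff, dot]
  field_simp
  simp only [cross]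
  push_cast
  ring

theorem cross_pq (p q r w : ℤ × ℤ) : cross p q (aff p q r w) = w.2 * cross p q r := by
  simp only [cross, aff]; ring

theorem cross_qp (p q r w : ℤ × ℤ) : cross q p (aff p q r w) = -w.2 * cross p q r := by
  simp only [cross, aff]; ring

theorem cross_pr (p q r w : ℤ × ℤ) : cross p r (aff p q r w) = -w.1 * cross p q r := by
  simp only [cross, aff]; ring

theorem cross_rp (p q r w : ℤ × ℤ) : cross r p (aff p q r w) = w.1 * cross p q r := by
  simp only [cross, aff]; ring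

theorem cross_qr (p q r w : ℤ × ℤ) :
    cross q r (aff p q r w) = (1 - w.1 - w.2) * cross p q r := by
  simp only [cross, aff]; ring

theorem cross_rq (p q r w : ℤ × ℤ) :
    cross r q (aff p q r w) = -(1 - w.1 - w.2) * cross p q r := by
  simp only [cross, aff]; ring

theorem cross_p_aff (p q r w v : ℤ × ℤ) : cross p (aff p q r w) (aff p q r v) =
    (w.1 * v.2 - w.2 * v.1) * cross p q r := by
  simp only [cross, aff]; ring

theorem cross_q_aff (p q r w v : ℤ × ℤ) : cross q (aff p q r w) (aff p q r v) =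
    ((w.1 - 1) * v.2 - w.2 * (v.1 - 1)) * cross p q r := by
  simp only [cross, aff]; ring

theorem cross_r_aff (p q r w v : ℤ × ℤ) : cross r (aff p q r w) (aff p q r v) =
    (w.1 * (v.2 - 1) - (w.2 - 1) * v.1) * cross p q r := by
  simp only [cross, aff]; ring

theorem tmatch_p : ∀ i : Fin 3, (ta i).1 * (tb (Equiv.swap 1 2 i)).2 -
    (ta i).2 * (tb (Equiv.swap 1 2 i)).1 = 0 := by
  decide

theorem tmatch_q : ∀ i : Fin 3, ((ta i).1 - 1) * (tb (Equiv.swap 0 1 i)).2 -
    (ta i).2 * ((tb (Equiv.swap 0 1 i)).1 - 1) = 0 := by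
  decide

theorem tmatch_r : ∀ i : Fin 3, (ta i).1 * ((tb (Equiv.swap 0 2 i)).2 - 1) -
    ((ta i).2 - 1) * (tb (Equiv.swap 0 2 i)).1 = 0 := by
  decide

theorem aff_ne {p q r w : ℤ × ℤ} (hD : cross p q r ≠ 0) (h1 : 0 < w.1) (h2 : 0 < w.2) :
    aff p q r w ≠ p ∧ aff p q r w ≠ q ∧ aff p q r w ≠ r := by
  refine ⟨fun h => ?_, fun h => ?_, fun h => ?_⟩
  · have h3 := cross_pq p q r w
    rw [h] at h3
    have h4 : cross p q p = 0 := by simp only [cross]; ring
    rw [h4] at h3
    exact mul_ne_zero h2.ne' hD h3.symm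
  · have h3 := cross_pq p q r w
    rw [h] at h3
    have h4 : cross p q q = 0 := by simp only [cross]; ring
    rw [h4] at h3
    exact mul_ne_zero h2.ne' hD h3.symm
  · have h3 := cross_pr p q r w
    rw [h] at h3
    have h4 : cross p r r = 0 := by simp only [cross]; ring
    rw [h4] at h3
    exact mul_ne_zero (neg_ne_zero.2 h1.ne') hD h3.symm

theorem three {p q r : ℤ × ℤ} (hD : cross p q r ≠ 0) : ¬ Determine {p, q, r} := by
  have hsq : 0 < cross p q r * cross p q r := mul_self_pos.2 hD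
  refine not_determine (fun i => aff p q r (ta i)) (fun i => aff p q r (tb i)) {p, q, r}
    (by norm_num) ?_ ?_ ?_ ?_
  · intro i
    obtain ⟨α, β, κ, h⟩ := form_aff hD (na i)
    refine ⟨α, β, fun j hj => ?_, fun j => ?_⟩
    · rw [h, h]
      have := (tcheck_a i j).1 hj
      have h2 : ((dot (na i) (ta j) : ℤ) : ℝ) < ((dot (na i) (ta i) : ℤ) : ℝ) := by
        exact_mod_cast this
      linarith
    · rw [h, h]
      have := (tcheck_a i j).2
      have h2 : ((dot (na i) (tb j) : ℤ) : ℝ) < ((dot (na i) (ta i) : ℤ) : ℝ) := by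
        exact_mod_cast this
      linarith
  · intro i
    obtain ⟨α, β, κ, h⟩ := form_aff hD (nb i)
    refine ⟨α, β, fun j hj => ?_, fun j => ?_⟩
    · rw [h, h]
      have := (tcheck_b i j).1 hj
      have h2 : ((dot (nb i) (tb j) : ℤ) : ℝ) < ((dot (nb i) (tb i) : ℤ) : ℝ) := by
        exact_mod_cast this
      linarith
    · rw [h, h]
      have := (tcheck_b i j).2
      have h2 : ((dot (nb i) (ta j) : ℤ) : ℝ) < ((dot (nb i) (tb i) : ℤ) : ℝ) := by
        exact_mod_cast this
      linarith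
  · have key : ∀ c : (ℤ × ℤ) → ℤ, (∀ w : ℤ × ℤ, 0 < w.1 → 0 < w.2 → 1 < w.1 + w.2 → 0 < c w) →
        (∀ j, 0 < c (ta j)) ∧ ∀ j, 0 < c (tb j) := fun c hc =>
      ⟨fun j => hc _ (tpos j).1.1 (tpos j).1.2.1 (tpos j).1.2.2,
        fun j => hc _ (tpos j).2.1 (tpos j).2.2.1 (tpos j).2.2.2⟩
    rintro x (rfl | rfl | rfl) y (rfl | rfl | rfl) hxy
    · exact absurd rfl hxy
    · refine ⟨cross x y r, key (fun w => cross x y r * cross x y (aff x y r w)) ?_⟩
      intro w h1 h2 h3
      simp only [cross_pq]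
      nlinarith [mul_pos h2 hsq]
    · refine ⟨-cross x q y, key (fun w => -cross x q y * cross x y (aff x q y w)) ?_⟩
      intro w h1 h2 h3
      simp only [cross_pr]
      nlinarith [mul_pos h1 hsq]
    · refine ⟨-cross y x r, key (fun w => -cross y x r * cross x y (aff y x r w)) ?_⟩
      intro w h1 h2 h3
      simp only [cross_qp]
      nlinarith [mul_pos h2 hsq]
    · exact absurd rfl hxy
    · refine ⟨-cross p x y, key (fun w => -cross p x y * cross x y (aff p x y w)) ?_⟩
      intro w h1 h2 h3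
      simp only [cross_qr]
      nlinarith [mul_pos (by linarith : 0 < w.1 + w.2 - 1) hsq]
    · refine ⟨cross y q x, key (fun w => cross y q x * cross x y (aff y q x w)) ?_⟩
      intro w h1 h2 h3
      simp only [cross_rp]
      nlinarith [mul_pos h1 hsq]
    · refine ⟨cross p y x, key (fun w => cross p y x * cross x y (aff p y x w)) ?_⟩
      intro w h1 h2 h3
      simp only [cross_rq]
      nlinarith [mul_pos (by linarith : 0 < w.1 + w.2 - 1) hsq]
    · exact absurd rfl hxy
  · have hne : ∀ i, (∀ x ∈ ({p, q, r} : Set (ℤ × ℤ)), aff p q r (ta i) ≠ x ∧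
        aff p q r (tb i) ≠ x) := by
      intro i x hx
      have h1 := aff_ne (w := ta i) hD (tpos i).1.1 (tpos i).1.2.1
      have h2 := aff_ne (w := tb i) hD (tpos i).2.1 (tpos i).2.2.1
      rcases hx with rfl | rfl | rfl
      · exact ⟨h1.1, h2.1⟩
      · exact ⟨h1.2.1, h2.2.1⟩
      · exact ⟨h1.2.2, h2.2.2⟩
    intro x hx
    have hx' := hx
    rcases hx' with rfl | rfl | rfl
    · refine ⟨Equiv.swap 1 2, fun i => ⟨(hne i _ hx).1, (hne i _ hx).2, ?_⟩⟩
      rw [cross_p_aff, tmatch_p, zero_mul]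
    · refine ⟨Equiv.swap 0 1, fun i => ⟨(hne i _ hx).1, (hne i _ hx).2, ?_⟩⟩
      rw [cross_q_aff, tmatch_q, zero_mul]
    · refine ⟨Equiv.swap 0 2, fun i => ⟨(hne i _ hx).1, (hne i _ hx).2, ?_⟩⟩
      rw [cross_r_aff, tmatch_r, zero_mul]

theorem cross_ne_zero {p q r : ℤ × ℤ} (h : ¬ Collinear ℝ {toR p, toR q, toR r}) :
    cross p q r ≠ 0 := by
  intro hD
  apply h
  have hD' : ((q.1 : ℝ) - p.1) * ((r.2 : ℝ) - p.2) - ((q.2 : ℝ) - p.2) * ((r.1 : ℝ) - p.1) = 0 := by
    have h2 : ((cross p q r : ℤ) : ℝ) = ((0 : ℤ) : ℝ) := by rw [hD]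
    simpa [cross] using h2
  by_cases hpq : toR q - toR p = 0
  · rw [sub_eq_zero] at hpq
    rw [hpq]
    simpa using collinear_pair ℝ (toR p) (toR r)
  · have hr : toR r ∈ lineThrough (toR p) (toR q - toR p) := by
      rw [mem_line_iff hpq]
      simp only [toR, Prod.fst_sub, Prod.snd_sub]
      linarith
    obtain ⟨t, ht⟩ := hr
    rw [collinear_iff_of_mem (p₀ := toR p) (by simp)]
    refine ⟨toR q - toR p, ?_⟩
    rintro x (rfl | rfl | rfl)
    · exact ⟨0, by simp⟩
    · exact ⟨1, by simp⟩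
    · exact ⟨t, by rw [ht]; simp [add_comm]⟩

/-- Discrete point X-rays at three noncollinear lattice points never determine convex lattice
sets; and there is a set of seven lattice points at which discrete point X-rays do not determine
convex lattice sets. -/
theorem result :
    (∀ p q r : ℤ × ℤ, ¬ Collinear ℝ {toR p, toR q, toR r} → ¬ Determine {p, q, r}) ∧
    ∃ P : Finset (ℤ × ℤ), P.card = 7 ∧ ¬ Determine (P : Set (ℤ × ℤ)) := by
  refine ⟨fun p q r h => three (cross_ne_zero h), Finset.univ.image pts, ?_, ?_⟩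
  · rw [Finset.card_image_of_injective _ pts_injective]
    simp
  · simpa using seven

end Pool.Agent.Results.MP_259ac5_co.PointXRays
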